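import Pool.Agent.N202.CF.Stm
import Pool.Agent.W437.HD.Fixed
import Pool.Agent.R401.Iso

/-!
# CF/DESC: descent of the fixed tensors
-/

set_option autoImplicit false
set_option linter.unusedSectionVars false

namespace Pool.Agent.N362.CF

open Pool.Agent.N202.CF

variable {ι : Type} [Fintype ι] [DecidableEq ι]

/-- the tensors fixed up to a multiplier -/
def Cond (S : Set (MvPolynomial (ι × ι) ℚ)) {n : ℕ} (b : Tensor ι n ℚ) (L : Type) [Field L]
    [Algebra ℚ L] (t : Tensor ι n L) : Prop :=
  ∀ g : Matrix ι ι L, IsUnit g.det → IsZeroOf S g → ∀ v w,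
    act g t v * inL L b w = t v * act g (inL L b) w

section transport

variable {L L' : Type} [Field L] [Field L'] [Algebra ℚ L] [Algebra ℚ L'] (φ : L ≃+* L')

lemma det_map (g : Matrix ι ι L) : (g.map φ).det = φ g.det := by
  have h := RingHom.map_det φ.toRingHom g
  exact h.symm

lemma zero_map (S : Set (MvPolynomial (ι × ι) ℚ)) {g : Matrix ι ι L} (h : IsZeroOf S g) :
    IsZeroOf S (g.map φ) := by
  intro f hf
  have h1 := congrArg φ (h f hf)
  rw [map_zero] at h1
  rw [← h1]
  have h2 : φ (MvPolynomial.aeval (fun p : ι × ι => g p.1 p.2) f) =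
      MvPolynomial.aeval (fun p : ι × ι => φ (g p.1 p.2)) f := by
    rw [MvPolynomial.aeval_def, MvPolynomial.aeval_def]
    have h3 := MvPolynomial.hom_eval₂ f (algebraMap ℚ L) φ.toRingHom
      (fun p : ι × ι => g p.1 p.2)
    have h4 : φ.toRingHom.comp (algebraMap ℚ L) = algebraMap ℚ L' := Subsingleton.elim _ _
    rw [h4] at h3
    exact h3
  rw [h2]
  rfl

lemma act_map {n : ℕ} (g : Matrix ι ι L) (t : Tensor ι n L) (v : Fin n → ι) :
    act (g.map φ) (fun i => φ (t i)) v = φ (act g t v) := by
  unfold act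
  rw [map_sum]
  refine Finset.sum_congr rfl fun w _ => ?_
  rw [map_mul, map_prod]
  rfl

lemma inL_map {m : Type} (a : m → ℚ) : (fun i => φ (inL L a i)) = inL L' a := by
  funext i
  exact map_ratCast φ (a i)

lemma map_symm (g : Matrix ι ι L') : (g.map φ.symm).map φ = g := by
  ext i j
  simp

lemma cond_map (S : Set (MvPolynomial (ι × ι) ℚ)) {n : ℕ} (b : Tensor ι n ℚ) {t : Tensor ι n L}
    (h : Cond S b L t) : Cond S b L' (fun i => φ (t i)) := by
  intro g hg hz v w
  have h1 := h (g.map φ.symm) (by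
    rw [det_map]
    exact hg.map φ.symm) (zero_map φ.symm S hz) v w
  have h2 := congrArg φ h1
  rw [map_mul, map_mul, ← act_map, ← act_map, map_symm, inL_map] at h2
  have h3 : φ (inL L b w) = inL L' b w := congrFun (inL_map φ b) w
  rw [h3] at h2
  exact h2

lemma comb_map {m : Type} {T : Set (m → ℚ)} {x : m → L} (h : IsComb T x) :
    IsComb T (fun i => φ (x i)) := by
  unfold IsComb at h ⊢
  induction h using Submodule.span_induction with
  | mem x hx =>
    obtain ⟨a, ha, rfl⟩ := hx
    rw [inL_map]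
    exact Submodule.subset_span ⟨a, ha, rfl⟩
  | zero =>
    have : (fun i => φ ((0 : m → L) i)) = 0 := by
      funext i
      simp
    rw [this]
    exact Submodule.zero_mem _
  | add x y _ _ hx hy =>
    have : (fun i => φ ((x + y) i)) = (fun i => φ (x i)) + fun i => φ (y i) := by
      funext i
      simp
    rw [this]
    exact Submodule.add_mem _ hx hy
  | smul c x _ hx =>
    have : (fun i => φ ((c • x) i)) = φ c • fun i => φ (x i) := by
      funext i
      simp
    rw [this]
    exact Submodule.smul_mem _ _ hx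

end transport

/-- the space of the fixed tensors over the complex numbers -/
def condSub (S : Set (MvPolynomial (ι × ι) ℚ)) {n : ℕ} (b : Tensor ι n ℚ) :
    Submodule ℂ (Tensor ι n ℂ) where
  carrier := {t | Cond S b ℂ t}
  add_mem' := fun {x y} hx hy g hg hz v w => by
    have e : act g (x + y) v = act g x v + act g y v := by
      unfold act
      rw [← Finset.sum_add_distrib]
      exact Finset.sum_congr rfl fun w _ => by rw [Pi.add_apply, mul_add]
    rw [e, Pi.add_apply, add_mul, add_mul, hx g hg hz v w, hy g hg hz v w]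
  zero_mem' := fun g hg hz v w => by
    have e : act g (0 : Tensor ι n ℂ) v = 0 := by
      unfold act
      exact Finset.sum_eq_zero fun w _ => by rw [Pi.zero_apply, mul_zero]
    rw [e, Pi.zero_apply, zero_mul, zero_mul]
  smul_mem' := fun c x hx g hg hz v w => by
    have e : act g (c • x) v = c * act g x v := by
      unfold act
      rw [Finset.mul_sum]
      exact Finset.sum_congr rfl fun w _ => by rw [Pi.smul_apply, smul_eq_mul]; ring
    rw [e, Pi.smul_apply, smul_eq_mul, mul_assoc, mul_assoc, hx g hg hz v w]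

theorem desc_ : S_DESC := by
  intro ι _ _ S n b
  refine ⟨{u | Cond S b ℂ (inL ℂ u)}, ?_⟩
  have hC : ∀ t : Tensor ι n ℂ, Cond S b ℂ t ↔ IsComb {u | Cond S b ℂ (inL ℂ u)} t := by
    intro t
    have h1 := Pool.Agent.W437.HD.span_rational (condSub S b) (fun σ v hv => cond_map σ S b hv)
    have h2 : {w | w ∈ condSub S b ∧ ∃ u : (Fin n → ι) → ℚ, w = fun i => (u i : ℂ)} =
        inL ℂ '' {u | Cond S b ℂ (inL ℂ u)} := by
      ext w
      constructor
      · rintro ⟨h3, u, rfl⟩
        exact ⟨u, h3, rfl⟩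
      · rintro ⟨u, h3, rfl⟩
        exact ⟨h3, u, rfl⟩
    rw [h2] at h1
    change t ∈ condSub S b ↔ t ∈ Submodule.span ℂ (inL ℂ '' {u | Cond S b ℂ (inL ℂ u)})
    rw [← h1]
  intro ℓ _ t
  obtain ⟨φ⟩ := Pool.Agent.R401.Iso.exists_iso ℓ
  let φ' : AlgebraicClosure ℚ_[ℓ] ≃+* ℂ := φ
  change Cond S b (AlgebraicClosure ℚ_[ℓ]) t ↔ _
  have e : (fun i => φ'.symm (φ' (t i))) = t := by
    funext i
    simp
  constructor
  · intro h
    have h1 := comb_map φ'.symm ((hC _).1 (cond_map φ' S b h))
    rwa [e] at h1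
  · intro h
    have h1 := cond_map φ'.symm S b ((hC _).2 (comb_map φ' h))
    rwa [e] at h1

end Pool.Agent.N362.CF
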