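import Pool.Agent.N202.CF.Stm

/-!
# CF/OPEN and CF/SUB
-/

set_option autoImplicit false

namespace Pool.Agent.N362.CF

open Pool.Agent.N202.CF

theorem open_ : S_OPEN := by
  classical
  intro L Ω _ _ _ ι _ _ Γ _ ρ
  let I : Ideal (MvPolynomial (ι × ι) Ω) :=
    { carrier := {f | Vanishes ρ f}
      add_mem' := fun {f g} hf hg => by
        obtain ⟨Δ, hΔ, h1⟩ := hf
        obtain ⟨Δ', hΔ', h2⟩ := hg
        refine ⟨Δ ⊓ Δ', inferInstance, fun s hs => ?_⟩
        have e : val ((ρ s).map (algebraMap L Ω)) (f + g) =
          val ((ρ s).map (algebraMap L Ω)) f + val ((ρ s).map (algebraMap L Ω)) g := map_add _ _ _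
        rw [e, h1 s hs.1, h2 s hs.2, add_zero]
      zero_mem' := ⟨⊤, inferInstance, fun s _ => map_zero _⟩
      smul_mem' := fun c f hf => by
        obtain ⟨Δ, hΔ, h1⟩ := hf
        refine ⟨Δ, hΔ, fun s hs => ?_⟩
        have e : val ((ρ s).map (algebraMap L Ω)) (c • f) =
          val ((ρ s).map (algebraMap L Ω)) c * val ((ρ s).map (algebraMap L Ω)) f := by
          rw [smul_eq_mul]
          exact map_mul _ _ _
        rw [e, h1 s hs, mul_zero] }
  obtain ⟨G, hG⟩ : I.FG := IsNoetherian.noetherian I
  have hGI : ∀ f : G, Vanishes ρ (f : MvPolynomial (ι × ι) Ω) := fun f => by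
    have : (f : MvPolynomial (ι × ι) Ω) ∈ I := by
      rw [← hG]
      exact Submodule.subset_span f.2
    exact this
  choose Δ hΔ h1 using hGI
  refine ⟨⨅ f, Δ f, Subgroup.finiteIndex_iInf hΔ, fun s hs f hf => ?_⟩
  have h2 : I ≤ RingHom.ker (MvPolynomial.aeval
      (fun p : ι × ι => ((ρ s).map (algebraMap L Ω)) p.1 p.2) : MvPolynomial (ι × ι) Ω →ₐ[Ω] Ω) := by
    rw [← hG]
    refine Submodule.span_le.2 fun g hg => ?_
    exact h1 ⟨g, hg⟩ s ((Subgroup.mem_iInf.1 hs) ⟨g, hg⟩)
  exact h2 (show f ∈ I from hf)

theorem sub_ : S_SUB := by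
  classical
  intro L Ω _ _ _ _ m _ T x
  constructor
  · intro h
    by_contra hx
    obtain ⟨φ, hφ1, hφ2⟩ := Submodule.exists_dual_map_eq_bot_of_notMem (x := x)
      (p := Submodule.span L (inL L '' T)) hx inferInstance
    have hφ : ∀ y : m → L, φ y = ∑ i, y i * φ (Pi.single i 1) := by
      intro y
      conv_lhs => rw [← Finset.univ_sum_single y]
      rw [map_sum]
      refine Finset.sum_congr rfl fun i _ => ?_
      have : (Pi.single i (y i) : m → L) = y i • Pi.single i 1 := by
        rw [← Pi.single_smul, smul_eq_mul, mul_one]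
      rw [this, map_smul, smul_eq_mul]
    have key : ∀ z : m → Ω, z ∈ Submodule.span Ω (inL Ω '' T) →
        ∑ i, z i * algebraMap L Ω (φ (Pi.single i 1)) = 0 := by
      intro z hz
      induction hz using Submodule.span_induction with
      | mem z hz =>
        obtain ⟨a, ha, rfl⟩ := hz
        have h1 : φ (inL L a) = 0 := by
          have h2 : φ (inL L a) ∈ (Submodule.span L (inL L '' T)).map φ :=
            ⟨_, Submodule.subset_span ⟨a, ha, rfl⟩, rfl⟩
          rw [hφ2] at h2
          exact h2
        rw [hφ] at h1
        have h3 := congrArg (algebraMap L Ω) h1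
        rw [map_zero, map_sum] at h3
        rw [← h3]
        refine Finset.sum_congr rfl fun i _ => ?_
        rw [map_mul]
        congr 1
        exact (map_ratCast (algebraMap L Ω) (a i)).symm
      | zero => simp
      | add y z _ _ hy hz =>
        have : ∑ i, (y + z) i * algebraMap L Ω (φ (Pi.single i 1)) =
            ∑ i, y i * algebraMap L Ω (φ (Pi.single i 1)) +
            ∑ i, z i * algebraMap L Ω (φ (Pi.single i 1)) := by
          rw [← Finset.sum_add_distrib]
          exact Finset.sum_congr rfl fun i _ => by rw [Pi.add_apply, add_mul]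
        rw [this, hy, hz, add_zero]
      | smul c z _ hz =>
        have : ∑ i, (c • z) i * algebraMap L Ω (φ (Pi.single i 1)) =
            c * ∑ i, z i * algebraMap L Ω (φ (Pi.single i 1)) := by
          rw [Finset.mul_sum]
          exact Finset.sum_congr rfl fun i _ => by rw [Pi.smul_apply, smul_eq_mul, mul_assoc]
        rw [this, hz, mul_zero]
    have h1 := key _ h
    apply hφ1
    apply (algebraMap L Ω).injective
    rw [hφ, map_zero, map_sum, ← h1]
    exact Finset.sum_congr rfl fun i _ => by rw [map_mul]
  · intro h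
    unfold IsComb at h ⊢
    induction h using Submodule.span_induction with
    | mem x hx =>
      obtain ⟨a, ha, rfl⟩ := hx
      have : (fun i => algebraMap L Ω (inL L a i)) = inL Ω a := by
        funext i
        exact map_ratCast (algebraMap L Ω) (a i)
      rw [this]
      exact Submodule.subset_span ⟨a, ha, rfl⟩
    | zero =>
      have : (fun i => algebraMap L Ω ((0 : m → L) i)) = 0 := by
        funext i
        simp
      rw [this]
      exact Submodule.zero_mem _
    | add x y _ _ hx hy =>
      have : (fun i => algebraMap L Ω ((x + y) i)) =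
          (fun i => algebraMap L Ω (x i)) + fun i => algebraMap L Ω (y i) := by
        funext i
        simp
      rw [this]
      exact Submodule.add_mem _ hx hy
    | smul c x _ hx =>
      have : (fun i => algebraMap L Ω ((c • x) i)) =
          algebraMap L Ω c • fun i => algebraMap L Ω (x i) := by
        funext i
        simp
      rw [this]
      exact Submodule.smul_mem _ _ hx

end Pool.Agent.N362.CF
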